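import Pool.Agent.H85.ERG.Targets

/-!
# Row TY: the mesh step is piecewise given by `tm`, and injective
-/

namespace Pool.Agent.H90.ERG

open MeasureTheory Set Metric Filter Topology Pool.Agent.H85.ERG Pool.Agent.H93.EN
open Pool.Agent.H93.BL hiding T_B1 T_B2 T_B3 T_SB T_SC

section

variable {ι : Type} (P : Polygon ι)

theorem notMem_of_openSegment (j : ι) (y : ℂ) (hy : y ∈ openSegment ℝ (P.p j) (P.q j)) :
    y ∉ P.Ω := by
  intro h
  have h1 : y ∈ frontier P.Ω := by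
    rw [P.frontier_eq]
    exact mem_iUnion.2 ⟨j, openSegment_subset_segment _ _ _ hy⟩
  have h2 := P.isOpen.inter_frontier_eq
  have h3 : y ∈ P.Ω ∩ frontier P.Ω := ⟨h, h1⟩
  rw [h2] at h3
  exact h3

theorem sg_add (j : ι) (x v : ℂ) : sg P j (x + v) = sg P j x + cr (P.u j) v := by
  unfold sg
  rw [← cr_add_right]
  congr 1
  ring

theorem sg_smul (j : ι) (x v : ℂ) (t : ℝ) :
    sg P j (x + (t : ℂ) * v) = sg P j x + t * cr (P.u j) v := by
  rw [sg_add, cr_smul_right]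

theorem continuous_sg (j : ι) : Continuous (sg P j) := by
  unfold sg
  exact (continuous_cr_right _).comp (continuous_id.sub continuous_const)

theorem chart_mono (x : ℂ) (R R' : ℝ) (τ : Option ι) (h : Chart P x R τ) (hR : R' ≤ R) :
    Chart P x R' τ := by
  have hb : ball x R' ⊆ ball x R := ball_subset_ball hR
  cases τ with
  | none => exact hb.trans h
  | some j => exact ⟨h.1, fun y hy => h.2.1 y (hb hy), fun y hy => h.2.2 y (hb hy)⟩

theorem sg_pos_of_chart (x : ℂ) (R : ℝ) (j : ι) (hx : x ∈ P.Ω) (hR : 0 < R)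
    (h : Chart P x R (some j)) : 0 < sg P j x := by
  rcases h.1.lt_or_eq with h1 | h1
  · exact h1
  · exact absurd hx (notMem_of_openSegment P j x (h.2.2 x (mem_ball_self hR) h1.symm))

theorem mem_ball_smul (x v : ℂ) (R t : ℝ) (hv : ‖v‖ < R) (h0 : 0 ≤ t) (h1 : t ≤ 1) :
    x + (t : ℂ) * v ∈ ball x R := by
  rw [mem_ball, dist_eq_norm, add_sub_cancel_left, norm_mul, Complex.norm_real,
    Real.norm_of_nonneg h0]
  have h2 := norm_nonneg v
  nlinarith

theorem mem_seg_iff (x v y : ℂ) :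
    y ∈ segment ℝ x (x + v) ↔ ∃ t : ℝ, 0 ≤ t ∧ t ≤ 1 ∧ y = x + (t : ℂ) * v := by
  rw [segment_eq_image']
  constructor
  · rintro ⟨t, ⟨h0, h1⟩, rfl⟩
    refine ⟨t, h0, h1, ?_⟩
    simp only [Complex.real_smul]
    ring
  · rintro ⟨t, h0, h1, rfl⟩
    refine ⟨t, ⟨h0, h1⟩, ?_⟩
    simp only [Complex.real_smul]
    ring

/-- the segment stays in the table if the end point is on the good side -/
theorem seg_sub (x v : ℂ) (R : ℝ) (τ : Option ι) (hx : x ∈ P.Ω) (hv : ‖v‖ < R)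
    (h : Chart P x R τ) (hs : ∀ j, τ = some j → 0 < sg P j (x + v)) :
    segment ℝ x (x + v) ⊆ P.Ω := by
  have hR : 0 < R := lt_of_le_of_lt (norm_nonneg v) hv
  intro y hy
  obtain ⟨t, h0, h1, rfl⟩ := (mem_seg_iff x v y).1 hy
  have hb := mem_ball_smul x v R t hv h0 h1
  cases τ with
  | none => exact h hb
  | some j =>
    have hp := sg_pos_of_chart P x R j hx hR h
    have hq := hs j rfl
    rw [sg_add] at hq
    refine h.2.1 _ hb ?_
    rw [sg_smul]
    have e : sg P j x + t * cr (P.u j) v =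
        (1 - t) * sg P j x + t * (sg P j x + cr (P.u j) v) := by ring
    rw [e]
    rcases h0.lt_or_eq with h2 | h2
    · have h3 : 0 ≤ (1 - t) * sg P j x := mul_nonneg (by linarith) hp.le
      have h4 : 0 < t * (sg P j x + cr (P.u j) v) := mul_pos h2 hq
      linarith
    · rw [← h2]
      linarith

/-- the segment in the table does not reach the line of the chart -/
theorem sg_pos_of_seg (x v : ℂ) (R : ℝ) (j : ι) (hx : x ∈ P.Ω) (hv : ‖v‖ < R)
    (h : Chart P x R (some j)) (hs : segment ℝ x (x + v) ⊆ P.Ω) : 0 < sg P j (x + v) := by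
  have hR : 0 < R := lt_of_le_of_lt (norm_nonneg v) hv
  have hp := sg_pos_of_chart P x R j hx hR h
  by_contra hcon
  push Not at hcon
  rw [sg_add] at hcon
  have hc : 0 < -cr (P.u j) v := by linarith
  have ht0 : 0 ≤ sg P j x / -cr (P.u j) v := (div_pos hp hc).le
  have ht1 : sg P j x / -cr (P.u j) v ≤ 1 := by
    rw [div_le_one hc]; linarith
  have h0 : sg P j (x + ((sg P j x / -cr (P.u j) v : ℝ) : ℂ) * v) = 0 := by
    rw [sg_smul]
    have hne : cr (P.u j) v ≠ 0 := by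
      intro h0
      rw [h0] at hc
      simp at hc
    have hne' : -cr (P.u j) v ≠ 0 := neg_ne_zero.2 hne
    field_simp
    ring
  exact notMem_of_openSegment P j _
    (h.2.2 _ (mem_ball_smul x v R _ hv ht0 ht1) h0)
    (hs ((mem_seg_iff x v _).2 ⟨_, ht0, ht1, rfl⟩))

theorem norm_hw (h : ℝ) (w : ℂ) (hh : 0 ≤ h) (hw : ‖w‖ = 1) : ‖(h : ℂ) * w‖ = h := by
  rw [norm_mul, Complex.norm_real, Real.norm_of_nonneg hh, hw, mul_one]

/-- from a move to a type -/
theorem ty_of_mv (h2 : T_FO) (κ a h : ℝ) (hκ : 0 < κ) (ha : 0 < a) (hh : 0 ≤ h)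
    (z : ℂ × ℂ) (hz : ‖z.2‖ = 1) (x' w' : ℂ)
    (hm : Mv P κ a z.1 z.2 ((h : ℂ) * z.2) x' w') :
    ∃ τ, z ∈ Ty P κ a h τ ∧ tm P h τ z = (x', w') := by
  obtain ⟨hx, hx', har, hv, τ, hc, e1, e2⟩ := hm
  rw [norm_hw h z.2 hh hz] at hv
  have hR : κ * a / 2 < κ * rh P z.1 := by nlinarith
  have hvR : ‖(h : ℂ) * z.2‖ < κ * rh P z.1 := by
    rw [norm_hw h z.2 hh hz]
    have : 0 < κ * a := mul_pos hκ ha
    linarith
  cases τ with
  | none =>
    refine ⟨none, ⟨hz, hx, har, ?_⟩, ?_⟩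
    · exact seg_sub P z.1 _ _ none hx hvR hc (fun j hj => by cases hj)
    · exact Prod.ext e1.symm e2.symm
  | some j =>
    by_cases hs : 0 < sg P j (z.1 + (h : ℂ) * z.2)
    · refine ⟨none, ⟨hz, hx, har, ?_⟩, ?_⟩
      · refine seg_sub P z.1 _ _ (some j) hx hvR hc (fun i hi => ?_)
        cases hi
        exact hs
      · have e3 : fp P (some j) (z.1 + (h : ℂ) * z.2) = z.1 + (h : ℂ) * z.2 := if_pos hs
        have e4 : fw P (some j) (z.1 + (h : ℂ) * z.2) z.2 = z.2 := if_pos hs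
        rw [e3] at e1
        rw [e4] at e2
        exact Prod.ext e1.symm e2.symm
    · have e3 : fp P (some j) (z.1 + (h : ℂ) * z.2) = P.aff j (z.1 + (h : ℂ) * z.2) := if_neg hs
      have e4 : fw P (some j) (z.1 + (h : ℂ) * z.2) z.2 = P.refl j z.2 := if_neg hs
      have hb : z.1 + (h : ℂ) * z.2 ∈ ball z.1 (κ * rh P z.1) := by
        rw [mem_ball, dist_eq_norm, add_sub_cancel_left]
        exact hvR
      have h3 := ((((h2 ι P).2.2 z.1 (κ * rh P z.1) (some j) hc).1 _ hb).2.2.2.1).1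
        (by rw [← e1]; exact hx')
      have h4 := h3 j rfl
      refine ⟨some j, ⟨hz, hx, har, chart_mono P _ _ _ _ hc hR.le, ?_⟩, ?_⟩
      · exact lt_of_le_of_ne (not_lt.1 hs) h4
      · rw [e3] at e1
        rw [e4] at e2
        exact Prod.ext e1.symm e2.symm

/-- from a type to a move -/
theorem mv_of_ty (h1 : T_AGP) (h2 : T_FO) (κ a h : ℝ) (hLS : LS P κ) (ha : 0 < a)
    (hh : 0 ≤ h) (hha : 64 * h < κ * a) (τ : Option ι) (z : ℂ × ℂ) (hz : z ∈ Ty P κ a h τ) :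
    ‖z.2‖ = 1 ∧ Mv P κ a z.1 z.2 ((h : ℂ) * z.2) (tm P h τ z).1 (tm P h τ z).2 := by
  obtain ⟨hκ, -, hLS1, -⟩ := hLS
  have hκa : 0 < κ * a := mul_pos hκ ha
  have key : ∀ (R : ℝ), κ * a / 2 ≤ R → h < R := by
    intro R hR
    linarith
  cases τ with
  | none =>
    obtain ⟨hz1, hx, har, hs⟩ := hz
    refine ⟨hz1, hx, ?_, har, ?_, ?_⟩
    · exact hs (right_mem_segment ℝ _ _)
    · rw [norm_hw h z.2 hh hz1]; exact hha
    · obtain ⟨τ0, hc⟩ := hLS1 z.1 hx
      have hR : κ * a / 2 < κ * rh P z.1 := by nlinarith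
      have hvR : ‖(h : ℂ) * z.2‖ < κ * rh P z.1 := by
        rw [norm_hw h z.2 hh hz1]; exact key _ hR.le
      refine ⟨τ0, hc, ?_⟩
      cases τ0 with
      | none => exact ⟨rfl, rfl⟩
      | some j =>
        have hs' := sg_pos_of_seg P z.1 _ _ j hx hvR hc hs
        have e3 : fp P (some j) (z.1 + (h : ℂ) * z.2) = z.1 + (h : ℂ) * z.2 := if_pos hs'
        have e4 : fw P (some j) (z.1 + (h : ℂ) * z.2) z.2 = z.2 := if_pos hs'
        rw [e3, e4]
        exact ⟨rfl, rfl⟩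
  | some j =>
    obtain ⟨hz1, hx, har, hcj, hs⟩ := hz
    obtain ⟨τ0, hc⟩ := hLS1 z.1 hx
    have hR : κ * a / 2 < κ * rh P z.1 := by nlinarith
    have hb' : z.1 + (h : ℂ) * z.2 ∈ ball z.1 (κ * a / 2) := by
      rw [mem_ball, dist_eq_norm, add_sub_cancel_left, norm_hw h z.2 hh hz1]
      exact key _ (le_refl _)
    have hb : z.1 + (h : ℂ) * z.2 ∈ ball z.1 (κ * rh P z.1) := ball_subset_ball hR.le hb'
    have hτ := h1 ι P z.1 (κ * a / 2) j τ0 hx hcj
      (chart_mono P _ _ _ _ hc hR.le) _ hb' hs.le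
    subst hτ
    have hns : ¬ 0 < sg P j (z.1 + (h : ℂ) * z.2) := not_lt.2 hs.le
    have e3 : fp P (some j) (z.1 + (h : ℂ) * z.2) = P.aff j (z.1 + (h : ℂ) * z.2) := if_neg hns
    have e4 : fw P (some j) (z.1 + (h : ℂ) * z.2) z.2 = P.refl j z.2 := if_neg hns
    have h3 := ((((h2 ι P).2.2 z.1 (κ * rh P z.1) (some j) hc).1 _ hb).2.2.2.1).2
      (fun i hi => by
        cases hi
        exact hs.ne)
    rw [e3] at h3
    refine ⟨hz1, hx, h3, har, ?_, some j, hc, ?_, ?_⟩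
    · rw [norm_hw h z.2 hh hz1]; exact hha
    · rw [e3]; rfl
    · rw [e4]; rfl

/-- the types are disjoint -/
theorem ty_disj (h1 : T_AGP) (κ a h : ℝ) (hκ : 0 < κ) (ha : 0 < a)
    (hh : 0 ≤ h) (hha : 64 * h < κ * a) (τ τ' : Option ι) (z : ℂ × ℂ) (hz : z ∈ Ty P κ a h τ)
    (hz' : z ∈ Ty P κ a h τ') : τ = τ' := by
  have hκa : 0 < κ * a := mul_pos hκ ha
  have aux : ∀ j, z ∈ Ty P κ a h none → z ∈ Ty P κ a h (some j) → False := by
    intro j hn hj
    obtain ⟨hz1, hx, har, hs⟩ := hn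
    obtain ⟨-, -, -, hcj, hsj⟩ := hj
    have hvR : ‖(h : ℂ) * z.2‖ < κ * a / 2 := by
      rw [norm_hw h z.2 hh hz1]; linarith
    have := sg_pos_of_seg P z.1 _ _ j hx hvR hcj hs
    linarith
  cases τ with
  | none =>
    cases τ' with
    | none => rfl
    | some j => exact (aux j hz hz').elim
  | some i =>
    cases τ' with
    | none => exact (aux i hz' hz).elim
    | some j =>
      obtain ⟨hz1, hx, har, hci, hsi⟩ := hz
      obtain ⟨-, -, -, hcj, hsj⟩ := hz'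
      have hb : z.1 + (h : ℂ) * z.2 ∈ ball z.1 (κ * a / 2) := by
        rw [mem_ball, dist_eq_norm, add_sub_cancel_left, norm_hw h z.2 hh hz1]
        linarith
      exact h1 ι P z.1 (κ * a / 2) j (some i) hx hcj hci _ hb hsj.le

/-- the inverse step -/
theorem mv_inv (h2 : T_FO) (h3 : T_CMP) (κ a h : ℝ) (hLS : LS P κ) (ha : 0 < a)
    (hh : 0 ≤ h) (hha : 64 * h < κ * a) (x w x1 w1 : ℂ) (hw : ‖w‖ = 1)
    (hm : Mv P κ a x w ((h : ℂ) * w) x1 w1) (σ : Option ι) (hσ : Chart P x1 (κ * rh P x1) σ) :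
    x = fp P σ (x1 + ((-h : ℝ) : ℂ) * w1) ∧ w = fw P σ (x1 + ((-h : ℝ) : ℂ) * w1) w1 := by
  obtain ⟨hκ, hκ4, -, -⟩ := hLS
  obtain ⟨hx, hx1, har, -, c, hc, e1, e2⟩ := hm
  have hκa : 0 < κ * a := mul_pos hκ ha
  have hR : κ * a / 2 < κ * rh P x := by nlinarith
  have hnv := norm_hw h w hh hw
  have hR0 : 0 < κ * rh P x := by linarith
  have hb : x + (h : ℂ) * w ∈ ball x (κ * rh P x) := by
    rw [mem_ball, dist_eq_norm, add_sub_cancel_left, hnv]
    linarith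
  obtain ⟨hFO1, -, hFO3⟩ := h2 ι P
  obtain ⟨hFa, hFb⟩ := hFO3 x (κ * rh P x) c hc
  obtain ⟨-, hrh, -, -, -⟩ := hFa _ hb
  obtain ⟨hfx, hfw⟩ := hFb hx hR0
  have hrh1 : rh P x - h ≤ rh P x1 := by
    rw [dist_eq_norm, add_sub_cancel_left, hnv, ← e1] at hrh
    exact hrh
  have hnv' : ‖((-h : ℝ) : ℂ) * w‖ = h := by
    rw [norm_mul, Complex.norm_real, hw, mul_one, Real.norm_eq_abs, abs_neg, abs_of_nonneg hh]
  have hR1 : h < κ * rh P x1 := by
    have h4 : κ * (rh P x - h) ≤ κ * rh P x1 := mul_le_mul_of_nonneg_left hrh1 hκ.le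
    have h5 : κ * h ≤ 1 / 4 * h := mul_le_mul_of_nonneg_right hκ4 hh
    have h6 : κ * (rh P x - h) = κ * rh P x - κ * h := by ring
    linarith
  have e0 : x + (h : ℂ) * w + ((-h : ℝ) : ℂ) * w = x := by
    push_cast; ring
  have hcmp := h3 ι P x (κ * rh P x) c x1 (κ * rh P x1) σ ((h : ℂ) * w) (((-h : ℝ) : ℂ) * w)
    hc hσ e1 hx1 (by rw [hnv, hnv']; linarith) (by rw [hnv']; exact hR1)
    (Or.inl (by rw [e0, hfx]; exact hx))
  rw [e0, hfx] at hcmp
  obtain ⟨hc1, hc2⟩ := hcmp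
  have e5 : fw P c (x + (h : ℂ) * w) (((-h : ℝ) : ℂ) * w) = ((-h : ℝ) : ℂ) * w1 := by
    rw [(hFO1 c (x + (h : ℂ) * w) w).2.2.2 (-h), ← e2]
  rw [e5] at hc1 hc2
  have hc3 := hc2 w
  rw [← e2, hfw w] at hc3
  exact ⟨hc1.symm, hc3.symm⟩

theorem continuous_aff (j : ι) : Continuous (P.aff j) := by
  unfold Polygon.aff
  fun_prop

theorem continuous_refl (j : ι) : Continuous (P.refl j) := by
  unfold Polygon.refl
  fun_prop

theorem meas_tm (h : ℝ) (τ : Option ι) : Measurable (tm P h τ) := by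
  cases τ with
  | none =>
    have : Continuous (tm P h none) := by
      unfold tm
      fun_prop
    exact this.measurable
  | some j =>
    have : Continuous (tm P h (some j)) := by
      unfold tm
      exact ((continuous_aff P j).comp (by fun_prop)).prodMk
        ((continuous_refl P j).comp (by fun_prop))
    exact this.measurable

theorem isOpen_seg (h : ℝ) :
    IsOpen {z : ℂ × ℂ | segment ℝ z.1 (z.1 + (h : ℂ) * z.2) ⊆ P.Ω} := by
  have e : {z : ℂ × ℂ | segment ℝ z.1 (z.1 + (h : ℂ) * z.2) ⊆ P.Ω} =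
      {z : ℂ × ℂ | ∀ t ∈ Icc (0 : ℝ) 1, z.1 + (t : ℂ) * ((h : ℂ) * z.2) ∈ P.Ω} := by
    ext z
    constructor
    · intro hz t ht
      exact hz ((mem_seg_iff _ _ _).2 ⟨t, ht.1, ht.2, rfl⟩)
    · intro hz y hy
      obtain ⟨t, h0, h1, rfl⟩ := (mem_seg_iff _ _ _).1 hy
      exact hz t ⟨h0, h1⟩
  rw [e, isOpen_iff_mem_nhds]
  intro z hz
  refine isCompact_Icc.eventually_forall_of_forall_eventually ?_
  intro t ht
  have hc : Continuous fun p : (ℂ × ℂ) × ℝ => p.1.1 + (p.2 : ℂ) * ((h : ℂ) * p.1.2) := by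
    fun_prop
  exact (hc.tendsto (z, t)) (P.isOpen.mem_nhds (hz t ht))

theorem meas_ty (h4 : T_CL) (κ a h : ℝ) (τ : Option ι) : MeasurableSet (Ty P κ a h τ) := by
  have m1 : MeasurableSet {z : ℂ × ℂ | ‖z.2‖ = 1} :=
    (isClosed_eq (by fun_prop) continuous_const).measurableSet
  have m2 : MeasurableSet {z : ℂ × ℂ | z.1 ∈ P.Ω} :=
    (P.isOpen.preimage continuous_fst).measurableSet
  have m3 : MeasurableSet {z : ℂ × ℂ | a < 2 * rh P z.1} := by
    have hc : Continuous fun z : ℂ × ℂ => 2 * rh P z.1 := by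
      unfold rh
      exact continuous_const.mul ((continuous_infDist_pt _).comp continuous_fst)
    exact (isOpen_lt continuous_const hc).measurableSet
  cases τ with
  | none =>
    have m4 := (isOpen_seg P h).measurableSet
    exact m1.inter (m2.inter (m3.inter m4))
  | some j =>
    have m4 : MeasurableSet {z : ℂ × ℂ | Chart P z.1 (κ * a / 2) (some j)} :=
      ((h4 ι P (κ * a / 2) (some j)).preimage continuous_fst).measurableSet
    have m5 : MeasurableSet {z : ℂ × ℂ | sg P j (z.1 + (h : ℂ) * z.2) < 0} := by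
      have hc : Continuous fun z : ℂ × ℂ => sg P j (z.1 + (h : ℂ) * z.2) :=
        (continuous_sg P j).comp (by fun_prop)
      exact (isOpen_lt hc continuous_const).measurableSet
    exact m1.inter (m2.inter (m3.inter (m4.inter m5)))

end

/-- Row TY. -/
theorem ty (h1 : T_AGP) (h2 : T_FO) (h3 : T_CMP) (h4 : T_CL) : T_TY := by
  intro ι P κ hLS a h ha hh hha
  have hκ : 0 < κ := hLS.1
  refine ⟨fun τ => ⟨meas_ty P h4 κ a h τ, meas_tm P h τ⟩, ?_, ?_, ?_, ?_⟩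
  · intro A z
    constructor
    · rintro ⟨hz, x', w', hm, hA⟩
      obtain ⟨τ, hτ, e⟩ := ty_of_mv P h2 κ a h hκ ha hh z hz x' w' hm
      exact ⟨τ, hτ, by rw [e]; exact hA⟩
    · rintro ⟨τ, hτ, hA⟩
      obtain ⟨hz, hm⟩ := mv_of_ty P h1 h2 κ a h hLS ha hh hha τ z hτ
      exact ⟨hz, _, _, hm, hA⟩
  · intro τ z hz
    obtain ⟨hz1, hm⟩ := mv_of_ty P h1 h2 κ a h hLS ha hh hha τ z hz
    refine ⟨hm.2.1, ?_⟩
    cases τ with
    | none => exact hz1
    | some j =>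
      have e : (tm P h (some j) z).2 = P.refl j z.2 := rfl
      rw [e, P.norm_refl, hz1]
  · intro τ τ' z hz hz'
    exact ty_disj P h1 κ a h hκ ha hh hha τ τ' z hz hz'
  · intro τ τ' z z' hz hz' heq
    obtain ⟨hz1, hm⟩ := mv_of_ty P h1 h2 κ a h hLS ha hh hha τ z hz
    obtain ⟨hz1', hm'⟩ := mv_of_ty P h1 h2 κ a h hLS ha hh hha τ' z' hz'
    obtain ⟨σ, hσ⟩ := hLS.2.2.1 (tm P h τ z).1 hm.2.1
    obtain ⟨ea, eb⟩ := mv_inv P h2 h3 κ a h hLS ha hh hha z.1 z.2 _ _ hz1 hm σ hσ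
    rw [← heq] at hm'
    obtain ⟨ea', eb'⟩ := mv_inv P h2 h3 κ a h hLS ha hh hha z'.1 z'.2 _ _ hz1' hm' σ hσ
    exact Prod.ext (ea.trans ea'.symm) (eb.trans eb'.symm)

end Pool.Agent.H90.ERG
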