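import Pool.Agent.H85.ERG.Targets

/-!
# Row VD: the sum over the dyadic layers
-/

namespace Pool.Agent.H90.ERG

open MeasureTheory Set Metric Filter Topology Pool.Agent.H85.ERG Pool.Agent.H93.EN
open Pool.Agent.H93.BL hiding T_B1 T_B2 T_B3 T_SB T_SC T_M3

/-- the pointwise bound -/
theorem dd_le (K : ℕ) (hK : 1 ≤ K) (v : ℝ) :
    ENNReal.ofReal (dd K v ^ 2) ≤ ∑ k ∈ Finset.range (K + 3),
      ENNReal.ofReal (16 / ((K : ℝ) ^ 2 * 4 ^ k)) * (Set.Iio ((2 : ℝ) ^ (k + 1))).indicator 1 v := by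
  unfold dd
  by_cases hv : 1 ≤ v ∧ v ≤ 2 ^ (K + 2)
  · rw [if_pos hv]
    obtain ⟨h1, h2⟩ := hv
    have hK0 : (0 : ℝ) < K := by exact_mod_cast hK
    have hv0 : 0 < v := by linarith
    obtain ⟨k, hk1, hk2⟩ := exists_nat_pow_near h1 (one_lt_two : (1 : ℝ) < 2)
    have hk : k < K + 3 := by
      by_contra hcon
      push Not at hcon
      have h3 : (2 : ℝ) ^ (K + 3) ≤ 2 ^ k := pow_le_pow_right₀ one_le_two hcon
      have h4 : (2 : ℝ) ^ (K + 3) = 2 * 2 ^ (K + 2) := by ring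
      have h5 : (0 : ℝ) < 2 ^ (K + 2) := by positivity
      linarith
    refine le_trans ?_ (Finset.single_le_sum
      (f := fun k => ENNReal.ofReal (16 / ((K : ℝ) ^ 2 * 4 ^ k)) *
        (Set.Iio ((2 : ℝ) ^ (k + 1))).indicator 1 v)
      (fun i _ => zero_le) (Finset.mem_range.2 hk))
    rw [Set.indicator_of_mem (Set.mem_Iio.2 hk2), Pi.one_apply, mul_one]
    refine ENNReal.ofReal_le_ofReal ?_
    have h6 : (4 : ℝ) ^ k ≤ v ^ 2 := by
      have e : (4 : ℝ) ^ k = (2 ^ k) ^ 2 := by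
        rw [← pow_mul, mul_comm, pow_mul]; norm_num
      rw [e]
      exact pow_le_pow_left₀ (by positivity) hk1 2
    rw [div_pow, mul_pow]
    norm_num
    exact div_le_div_of_nonneg_left (by norm_num) (by positivity)
      (mul_le_mul_of_nonneg_left h6 (by positivity))
  · rw [if_neg hv]
    simp

variable {ι : Type} (P : Polygon ι)

theorem meas_comp (g : ℂ × ℂ → ENNReal) (hg : Measurable g) :
    Measurable fun p : ℂ × ℝ => g (p.1, Complex.exp ((p.2 : ℂ) * Complex.I)) := by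
  refine hg.comp (measurable_fst.prodMk ?_)
  have h : Continuous fun p : ℂ × ℝ => Complex.exp ((p.2 : ℂ) * Complex.I) := by fun_prop
  exact h.measurable

/-- sums in the integral over the phase space -/
theorem PI_sum (S : Finset ℕ) (c : ℕ → ENNReal) (g : ℕ → ℂ × ℂ → ENNReal)
    (hg : ∀ k, Measurable (g k)) :
    PI P (fun x w => ∑ k ∈ S, c k * g k (x, w)) = ∑ k ∈ S, c k * PI P (fun x w => g k (x, w)) := by
  unfold PI
  have h1 : ∀ x : ℂ, ∫⁻ θ in Ioo 0 (2 * Real.pi),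
      ∑ k ∈ S, c k * g k (x, Complex.exp ((θ : ℂ) * Complex.I)) =
      ∑ k ∈ S, c k * ∫⁻ θ in Ioo 0 (2 * Real.pi), g k (x, Complex.exp ((θ : ℂ) * Complex.I)) := by
    intro x
    have hm : ∀ k, Measurable fun θ : ℝ => g k (x, Complex.exp ((θ : ℂ) * Complex.I)) :=
      fun k => (meas_comp (g k) (hg k)).comp (measurable_const.prodMk measurable_id)
    rw [lintegral_finsetSum _ fun k _ => (hm k).const_mul _]
    exact Finset.sum_congr rfl fun k _ => lintegral_const_mul _ (hm k)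
  have h2 : ∀ k, Measurable fun x : ℂ => ∫⁻ θ in Ioo 0 (2 * Real.pi),
      g k (x, Complex.exp ((θ : ℂ) * Complex.I)) :=
    fun k => (meas_comp (g k) (hg k)).lintegral_prod_right'
  simp only [h1]
  rw [lintegral_finsetSum _ fun k _ => (h2 k).const_mul _]
  exact Finset.sum_congr rfl fun k _ => lintegral_const_mul _ (h2 k)

theorem PI_mono {f g : ℂ → ℂ → ENNReal}
    (h : ∀ x w, x ∈ P.Ω → ‖w‖ = 1 → f x w ≤ g x w) : PI P f ≤ PI P g := by
  unfold PI
  refine lintegral_mono_ae ?_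
  filter_upwards [ae_restrict_mem P.isOpen.measurableSet] with x hx
  refine lintegral_mono fun θ => h x _ hx ?_
  exact Complex.norm_exp_ofReal_mul_I θ

/-- Row VD. -/
theorem vd (h1 : T_M3) (h2 : T_PV) (h3 : T_MS) : T_VD := by
  intro ι _ P κ hLS
  obtain ⟨C, hC, hM3⟩ := h1 ι P κ hLS
  refine ⟨256 * C, by positivity, ?_⟩
  intro a L ha haL K hK
  have hL : 0 < L := by linarith
  have hmeas := h3 ι P κ hLS a L ha hL
  have hK0 : (0 : ℝ) < K := by exact_mod_cast hK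
  have hK1 : (1 : ℝ) ≤ K := by exact_mod_cast hK
  -- the sublevel sets
  have hB : ∀ k : ℕ, Measurable
      (fun z : ℂ × ℂ => (Set.Iio ((2 : ℝ) ^ (k + 1))).indicator (1 : ℝ → ENNReal)
        (mc P κ a L z.1 z.2)) := by
    intro k
    have h4 : Measurable ((Set.Iio ((2 : ℝ) ^ (k + 1))).indicator (1 : ℝ → ENNReal)) :=
      (measurable_one).indicator measurableSet_Iio
    exact h4.comp hmeas
  have step1 : PI P (fun x w => ENNReal.ofReal (dd K (mc P κ a L x w) ^ 2)) ≤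
      PI P (fun x w => ∑ k ∈ Finset.range (K + 3),
        ENNReal.ofReal (16 / ((K : ℝ) ^ 2 * 4 ^ k)) *
          (Set.Iio ((2 : ℝ) ^ (k + 1))).indicator (1 : ℝ → ENNReal)
            (mc P κ a L (x, w).1 (x, w).2)) :=
    PI_mono P fun x w _ _ => dd_le K hK _
  refine step1.trans ?_
  rw [PI_sum P (Finset.range (K + 3)) (fun k => ENNReal.ofReal (16 / ((K : ℝ) ^ 2 * 4 ^ k)))
    (fun k z => (Set.Iio ((2 : ℝ) ^ (k + 1))).indicator (1 : ℝ → ENNReal)
      (mc P κ a L z.1 z.2)) hB]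
  have step2 : ∀ k : ℕ, PI P (fun x w => (Set.Iio ((2 : ℝ) ^ (k + 1))).indicator
      (1 : ℝ → ENNReal) (mc P κ a L (x, w).1 (x, w).2)) ≤
      ENNReal.ofReal (C * (2 ^ (k + 1)) ^ 2 * a * L) := by
    intro k
    refine le_trans ?_ (hM3 a L (2 ^ (k + 1)) ha haL (one_le_pow₀ one_le_two))
    unfold pv
    refine PI_mono P fun x w hx hw => ?_
    have hmc : mc P κ a L x w = mm P κ a L x w := by
      unfold mc
      rw [if_pos ⟨hx, hw⟩]
    by_cases hlt : mm P κ a L x w < 2 ^ (k + 1)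
    · have hmem : (x, w) ∈ {z : ℂ × ℂ | z.1 ∈ P.Ω ∧ ‖z.2‖ = 1 ∧
          mm P κ a L z.1 z.2 < 2 ^ (k + 1)} := ⟨hx, hw, hlt⟩
      rw [Set.indicator_of_mem hmem]
      simp only
      rw [hmc, Set.indicator_of_mem (Set.mem_Iio.2 hlt)]
      exact le_refl _
    · simp only
      rw [hmc, Set.indicator_of_notMem (fun h => hlt (Set.mem_Iio.1 h))]
      exact zero_le
  refine (Finset.sum_le_sum fun k _ => mul_le_mul_right (step2 k) _).trans ?_
  have step3 : ∀ k : ℕ, ENNReal.ofReal (16 / ((K : ℝ) ^ 2 * 4 ^ k)) *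
      ENNReal.ofReal (C * (2 ^ (k + 1)) ^ 2 * a * L) =
      ENNReal.ofReal (64 * C * a * L / (K : ℝ) ^ 2) := by
    intro k
    rw [← ENNReal.ofReal_mul (by positivity)]
    congr 1
    have e : ((2 : ℝ) ^ (k + 1)) ^ 2 = 4 * 4 ^ k := by
      rw [← pow_mul, mul_comm, pow_mul]
      norm_num
      ring
    rw [e]
    have h4 : (4 : ℝ) ^ k ≠ 0 := by positivity
    field_simp
    ring
  rw [Finset.sum_congr rfl fun k _ => step3 k, Finset.sum_const, Finset.card_range,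
    nsmul_eq_mul]
  have e2 : ((K + 3 : ℕ) : ENNReal) = ENNReal.ofReal ((K : ℝ) + 3) := by
    rw [← ENNReal.ofReal_natCast]
    congr 1
    push_cast
    rfl
  rw [e2, ← ENNReal.ofReal_mul (by positivity)]
  refine ENNReal.ofReal_le_ofReal ?_
  rw [mul_div_assoc', div_le_div_iff₀ (by positivity) hK0]
  have h5 : (K : ℝ) + 3 ≤ 4 * K := by linarith
  have h6 : 0 ≤ 64 * C * a * L * K := by positivity
  nlinarith

end Pool.Agent.H90.ERG
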